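import Pool.Agent.Helper95.FL.StmtsG

set_option autoImplicit false

/-!
# XT-4I: one matrix entry at two points
-/

namespace Pool.Agent.Helper74.FL

open Pool.Agent.Helper95.FL
open Pool.Agent.Helper95.FL.FD

lemma sum3 {K : Type} [Field K] (f : Fin 3 → K) {i j t : Fin 3} (hij : i ≠ j) (hit : i ≠ t)
    (hjt : j ≠ t) : ∑ x, f x = f i + f j + f t := by
  have h : (Finset.univ : Finset (Fin 3)) = {i, j, t} := by
    revert i j t; decide
  rw [h, Finset.sum_insert (by simp [hij, hit]), Finset.sum_insert (by simp [hjt]),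
    Finset.sum_singleton, add_assoc]

/-- the entry of a triple product -/
lemma mul3_apply {K : Type} [Field K] (C B D : Mat3 K) (i j : Fin 3) :
    (C * B * D) i j = ∑ x, ∑ y, C i x * B x y * D y j := by
  simp only [Matrix.mul_apply, Finset.sum_mul]
  exact Finset.sum_comm

theorem stL4I (hZ : StZ) : StL4I := by
  intro K _ m F a b l hab hal hbl x hx y hy x' hx' y' hy' hxy
  obtain ⟨D, hD⟩ := hx
  obtain ⟨C, hC⟩ := hy
  obtain ⟨C', hC'⟩ := hx'
  obtain ⟨D', hD'⟩ := hy'
  -- the entry is zero at every point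
  have key : ∀ ε, (mat x' ε * F.A ε * mat y' ε) l b = 0 := by
    intro ε
    have h1 : mat (x * y) ε l b = mat (x' * y') ε l b := by rw [hxy]
    rw [mat_mul, mat_mul] at h1
    simp only [Matrix.add_apply] at h1
    have e1 : ∀ k, mat x ε l k = 0 := by
      intro k
      rw [hD.2.1 ε]
      by_cases h : ε l = true
      · simp [h, tm_apply, (hD.1 k).2]
      · simp [h, (hD.1 k).2]
    have e2 : ∀ k, mat y ε k b = 0 := by
      intro k
      rw [hC.2.1 ε]
      by_cases h : ε b = true
      · simp [h, tm_apply, (hC.1 k).1]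
      · simp [h, (hC.1 k).1]
    have e3 : mat x' ε l b = 0 := by
      rw [hC'.2.1 ε]
      by_cases h : ε b = true
      · simp [h, tm_apply, (hC'.1 l).1]
      · simp [h, (hC'.1 l).1]
    have e4 : mat y' ε l b = 0 := by
      rw [hD'.2.1 ε]
      by_cases h : ε l = true
      · simp [h, tm_apply, (hD'.1 b).2]
      · simp [h, (hD'.1 b).2]
    have e5 : (mat x ε * F.A ε * mat y ε) l b = 0 := by
      rw [mul3_apply]
      exact Finset.sum_eq_zero fun i _ => Finset.sum_eq_zero fun j _ => by rw [e1]; ring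
    rw [e1, e2, e5, e3, e4] at h1
    simpa using h1.symm
  -- two points
  have k0 := key (fun _ => false)
  have k1 := key (fun s => decide (s = a))
  have hb : (decide (b = a)) = false := decide_eq_false (Ne.symm hab)
  have hl : (decide (l = a)) = false := decide_eq_false (Ne.symm hal)
  rw [hC'.2.1, hD'.2.1] at k0 k1
  rw [hb, hl] at k1
  simp only [Bool.false_eq_true, if_false] at k0 k1
  rw [mul3_apply, sum3 _ hab hal hbl] at k0 k1
  simp only [sum3 _ hab hal hbl, (hC'.1 l).1, (hD'.1 b).2, zero_mul, mul_zero, add_zero] at k0 k1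
  have A1 : ∀ ε, F.A ε a a = 1 := fun ε => by simp [A]
  have A2 : ∀ ε, F.A ε a b = if ε l then F.τ F.θ else F.θ := fun ε => by
    simp only [A, if_neg hab, third_eq hab hal hbl]
  have A3 : ∀ ε, F.A ε l a = if ε b then F.τ F.θ else F.θ := fun ε => by
    simp only [A, if_neg (Ne.symm hal), third_eq (Ne.symm hal) (Ne.symm hbl) hab]
  have A4 : ∀ ε, F.A ε l b = if ε a then F.τ F.θ else F.θ := fun ε => by
    simp only [A, if_neg (Ne.symm hbl), third_eq (Ne.symm hbl) (Ne.symm hal) (Ne.symm hab)]
  rw [A1, A2, A3, A4] at k0 k1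
  simp only [hb, hl, decide_true, Bool.false_eq_true, if_false, if_true] at k0 k1
  have h5 : C' l l * D' b b * (F.τ F.θ - F.θ) = 0 := by linear_combination k1 - k0
  rcases mul_eq_zero.1 h5 with h6 | h6
  · rcases mul_eq_zero.1 h6 with h7 | h7
    · exact Or.inl (hZ K m F b a l (Ne.symm hab) hbl hal x' C' hC' h7)
    · exact Or.inr (hZ K m F l a b (Ne.symm hal) (Ne.symm hbl) hab y' D' hD' h7)
  · exact absurd (sub_eq_zero.1 h6) F.τ_θ

end Pool.Agent.Helper74.FL
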