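import Pool.Agent.Helper95.FL.Stmts2

set_option autoImplicit false

/-!
# XT-C6: uniqueness of short words
-/

namespace Pool.Agent.Helper74.FL

open Pool.Agent.Helper95.FL

variable {G : Type} [Group G] {U : Fin 3 → Subgroup G}

lemma prodW_append (l l' : List (Fin 3 × G)) : prodW (l ++ l') = prodW l * prodW l' := by
  unfold prodW
  rw [List.map_append, List.prod_append]

lemma prodW_single (p : Fin 3 × G) : prodW [p] = p.2 := by
  unfold prodW
  simp

lemma word_concat {l : List (Fin 3 × G)} {p : Fin 3 × G} :
    Word U (l ++ [p]) ↔ Word U l ∧ (p.2 ∈ U p.1 ∧ p.2 ≠ 1) ∧ ∀ x ∈ l.getLast?, x.1 ≠ p.1 := by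
  unfold Word
  rw [List.isChain_append]
  constructor
  · rintro ⟨h1, h2, -, h3⟩
    refine ⟨⟨fun q hq => h1 q (by simp [hq]), h2⟩, h1 p (by simp), fun x hx => ?_⟩
    exact h3 x hx p (by simp)
  · rintro ⟨⟨h1, h2⟩, h3, h4⟩
    refine ⟨fun q hq => ?_, h2, List.isChain_singleton _, fun x hx y hy => ?_⟩
    · rw [List.mem_append, List.mem_singleton] at hq
      rcases hq with hq | rfl
      · exact h1 q hq
      · exact h3
    · simp only [List.head?_cons, Option.mem_def, Option.some.injEq] at hy
      subst hy
      exact h4 x hx

/-- the inverse word -/
def invW (l : List (Fin 3 × G)) : List (Fin 3 × G) := (l.map fun p => (p.1, p.2⁻¹)).reverse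

lemma prodW_invW (l : List (Fin 3 × G)) : prodW (invW l) = (prodW l)⁻¹ := by
  unfold prodW invW
  rw [List.prod_inv_reverse, List.map_reverse, List.map_map, List.map_map]
  rfl

lemma word_invW {l : List (Fin 3 × G)} (h : Word U l) : Word U (invW l) := by
  unfold Word invW at *
  refine ⟨fun p hp => ?_, ?_⟩
  · rw [List.mem_reverse, List.mem_map] at hp
    obtain ⟨q, hq, rfl⟩ := hp
    obtain ⟨h1, h2⟩ := h.1 q hq
    exact ⟨(U q.1).inv_mem h1, fun h3 => h2 (inv_eq_one.1 h3)⟩
  · rw [List.isChain_reverse, List.isChain_map]
    exact h.2.imp fun _ _ hab => Ne.symm hab

lemma length_invW (l : List (Fin 3 × G)) : (invW l).length = l.length := by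
  unfold invW
  simp

theorem uniq_aux {m : ℕ} (hG : Girth U m) : ∀ N : ℕ, ∀ l l' : List (Fin 3 × G),
    l.length + l'.length = N → N ≤ m → Word U l → Word U l' → prodW l = prodW l' →
      l.length = l'.length ∧ l.getLast?.map Prod.fst = l'.getLast?.map Prod.fst := by
  intro N
  induction N using Nat.strong_induction_on with
  | _ N ih =>
    intro l l' hN hm hl hl' hp
    rcases List.eq_nil_or_concat l with rfl | ⟨l0, p, rfl⟩
    · have h1 : l' = [] := by
        by_contra hne
        refine hG l' hl' hne (by simp at hN; omega) ?_
        rw [← hp]
        simp [prodW]
      subst h1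
      simp
    · rcases List.eq_nil_or_concat l' with rfl | ⟨l0', p', rfl⟩
      · exfalso
        refine hG _ hl (by simp) (by simp at hN ⊢; omega) ?_
        rw [hp]
        simp [prodW]
      · simp only [List.concat_eq_append] at *
        have hw := hl
        have hw' := hl'
        rw [word_concat] at hw hw'
        obtain ⟨w1, w2, w3⟩ := hw
        obtain ⟨w1', w2', w3'⟩ := hw'
        rw [List.length_append, List.length_append, List.length_singleton,
          List.length_singleton] at hN
        by_cases hs : p.1 = p'.1
        · by_cases hu : p.2 = p'.2
          · have h1 : prodW l0 = prodW l0' := by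
              rw [prodW_append, prodW_append, prodW_single, prodW_single, hu] at hp
              exact mul_right_cancel hp
            obtain ⟨h2, -⟩ := ih (l0.length + l0'.length) (by omega) l0 l0' rfl (by omega) w1 w1' h1
            refine ⟨by simp [h2], ?_⟩
            simp [hs]
          · exfalso
            have hq : Word U (l0 ++ [(p.1, p.2 * p'.2⁻¹)]) := by
              rw [word_concat]
              refine ⟨w1, ⟨?_, ?_⟩, w3⟩
              · exact (U p.1).mul_mem w2.1 ((U p.1).inv_mem (hs ▸ w2'.1))
              · intro h
                exact hu (mul_inv_eq_one.1 h)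
            have hpq : prodW (l0 ++ [(p.1, p.2 * p'.2⁻¹)]) = prodW l0' := by
              rw [prodW_append, prodW_append, prodW_single, prodW_single] at hp
              rw [prodW_append, prodW_single]
              change prodW l0 * (p.2 * p'.2⁻¹) = prodW l0'
              rw [← mul_assoc, hp, mul_assoc, mul_inv_cancel, mul_one]
            obtain ⟨-, h3⟩ := ih (l0.length + 1 + l0'.length) (by omega)
              (l0 ++ [(p.1, p.2 * p'.2⁻¹)]) l0' (by simp) (by omega) hq w1' hpq
            rw [List.getLast?_concat] at h3
            cases hx : l0'.getLast? with
            | none => rw [hx] at h3; simp at h3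
            | some x =>
              rw [hx] at h3
              simp only [Option.map_some, Option.some.injEq] at h3
              exact w3' x (by simp [hx]) (h3.symm.trans hs)
        · exfalso
          have hword : Word U ((l0 ++ [p]) ++ invW (l0' ++ [p'])) := by
            have i1 := word_invW hl'
            refine ⟨fun q hq => ?_, ?_⟩
            · rw [List.mem_append] at hq
              rcases hq with hq | hq
              · exact hl.1 q hq
              · exact i1.1 q hq
            · rw [List.isChain_append]
              refine ⟨hl.2, i1.2, ?_⟩
              intro x hx y hy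
              rw [List.getLast?_concat] at hx
              simp only [Option.mem_def, Option.some.injEq] at hx
              subst hx
              unfold invW at hy
              rw [List.head?_reverse, List.map_append, List.map_singleton,
                List.getLast?_concat] at hy
              simp only [Option.mem_def, Option.some.injEq] at hy
              subst hy
              exact hs
          refine hG _ hword (by simp) ?_ ?_
          · rw [List.length_append, length_invW, List.length_append, List.length_append,
              List.length_singleton, List.length_singleton]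
            omega
          · rw [prodW_append, prodW_invW, hp, mul_inv_cancel]

theorem stUniq : StUniq := by
  intro G _ U m hG l l' hl hl' hp hm
  exact uniq_aux hG _ l l' rfl hm hl hl' hp

end Pool.Agent.Helper74.FL
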